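import Mathlib

/-!
# Monochromatic packings in edge-coloured dense regular graphs (disproof)

For `H = C₄`, every number `r ≥ 2` of colours and every `c ≤ 1/2` there is no constant `C` as
asked for in MP_b9e70b_co.  The host graph is a slightly unbalanced complete bipartite graph with
classes `A` and `B`, `|B| = |A| - s`, all of whose edges get the first colour, together with an
`s`-regular graph without 4-cycles on `A`, all of whose edges get the second colour.  This graph
is `|A|`-regular on `2|A| - s` vertices, its monochromatic 4-cycles have two vertices in `A` and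
two in `B`, and so every monochromatic packing misses at least `s` vertices.
-/

namespace Pool.Agent.Results.MP_b9e70b_co.UnbalancedHost

open SimpleGraph

/-- `P` is a monochromatic `H`-packing of the graph `G` whose edges are coloured by `χ`: a finite
family of pairwise vertex-disjoint subgraphs of `G`, each isomorphic to `H` and each with all its
edges of one colour (different members may use different colours). -/
def IsMonoPacking {V W : Type} {r : ℕ} (G : SimpleGraph V) (H : SimpleGraph W)
    (χ : Sym2 V → Fin r) (P : Finset G.Subgraph) : Prop :=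
  (∀ K ∈ P, Nonempty (H ≃g K.coe)) ∧
  (∀ K ∈ P, ∃ k : Fin r, ∀ e ∈ K.edgeSet, χ e = k) ∧
  (∀ K ∈ P, ∀ L ∈ P, K ≠ L → Disjoint K.verts L.verts)

/-- The set of vertices of `G` covered by the family `P` of subgraphs. -/
def covered {V : Type} {G : SimpleGraph V} (P : Finset G.Subgraph) : Set V :=
  ⋃ K ∈ P, K.verts

/-- The property asked about for given `H`, `r`, `c`: some constant `C` works for all finite
`d`-regular graphs `G` with `d ≥ c |V(G)|` and all `r`-edge-colourings. -/
def HasConstant {W : Type} (H : SimpleGraph W) (r : ℕ) (c : ℝ) : Prop :=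
  ∃ C : ℕ, ∀ (V : Type) [Fintype V] (G : SimpleGraph V) (d : ℕ),
    (∀ v, (G.neighborSet v).ncard = d) → c * (Fintype.card V : ℝ) ≤ (d : ℝ) →
    ∀ χ : Sym2 V → Fin r, ∃ P : Finset G.Subgraph, IsMonoPacking G H χ P ∧
      (covered P)ᶜ.ncard ≤ C

/-- The larger class of the host graph. -/
abbrev AA (s : ℕ) : Type := (Fin s → ZMod 3) × Bool

/-- The `s`-regular graph without 4-cycles on the larger class. -/
def blue {s : ℕ} (x y : AA s) : Prop :=
  ∃ i : Fin s, (x.2 = false ∧ y.2 = true ∧ y.1 = x.1 + Pi.single i 1) ∨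
    (x.2 = true ∧ y.2 = false ∧ x.1 = y.1 + Pi.single i 1)

lemma blue_symm {s : ℕ} {x y : AA s} (h : blue x y) : blue y x := by
  obtain ⟨i, h | h⟩ := h
  · exact ⟨i, Or.inr ⟨h.2.1, h.1, h.2.2⟩⟩
  · exact ⟨i, Or.inl ⟨h.2.1, h.1, h.2.2⟩⟩

lemma not_blue_self {s : ℕ} (x : AA s) : ¬ blue x x := by
  rintro ⟨i, h | h⟩
  · rw [h.1] at h; simp at h
  · rw [h.1] at h; simp at h

/-- adjacency of the host graph -/
def hostAdj {s b : ℕ} : AA s ⊕ Fin b → AA s ⊕ Fin b → Prop
  | Sum.inl x, Sum.inl y => blue x y
  | Sum.inl _, Sum.inr _ => True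
  | Sum.inr _, Sum.inl _ => True
  | Sum.inr _, Sum.inr _ => False

/-- the host graph -/
def host (s b : ℕ) : SimpleGraph (AA s ⊕ Fin b) where
  Adj := hostAdj
  symm := by
    constructor
    rintro (x | x) (y | y) h
    · exact blue_symm h
    · trivial
    · trivial
    · exact h
  loopless := by
    constructor
    rintro (x | x) h
    · exact not_blue_self x h
    · exact h

/-- the neighbour of `x` in direction `i` in the blue graph -/
def nb {s : ℕ} (x : AA s) (i : Fin s) : AA s :=
  if x.2 = false then (x.1 + Pi.single i 1, true) else (x.1 - Pi.single i 1, false)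

lemma single_inj {s : ℕ} {i j : Fin s}
    (h : (Pi.single i 1 : Fin s → ZMod 3) = Pi.single j 1) : i = j := by
  by_contra hne
  have := congrFun h i
  rw [Pi.single_eq_same, Pi.single_eq_of_ne hne] at this
  exact absurd this (by decide)

lemma nb_inj {s : ℕ} (x : AA s) : Function.Injective (nb x) := by
  intro i j h
  unfold nb at h
  split_ifs at h with h0
  · have := congrArg Prod.fst h
    exact single_inj (add_left_cancel this)
  · have := congrArg Prod.fst h
    exact single_inj (sub_right_injective this)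

lemma blue_iff_nb {s : ℕ} (x y : AA s) : blue x y ↔ ∃ i, nb x i = y := by
  unfold blue nb
  constructor
  · rintro ⟨i, h | h⟩
    · refine ⟨i, ?_⟩
      rw [if_pos h.1]
      exact Prod.ext h.2.2.symm h.2.1.symm
    · refine ⟨i, ?_⟩
      rw [if_neg (by rw [h.1]; decide)]
      refine Prod.ext ?_ h.2.1.symm
      show x.1 - Pi.single i 1 = y.1
      rw [h.2.2]; abel
  · rintro ⟨i, h⟩
    refine ⟨i, ?_⟩
    split_ifs at h with h0
    · left
      rw [← h]
      exact ⟨h0, rfl, rfl⟩
    · right
      rw [← h]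
      refine ⟨by simpa using h0, rfl, ?_⟩
      show x.1 = x.1 - Pi.single i 1 + Pi.single i 1
      abel

/-- the blue graph has no 4-cycle -/
lemma no_blue_cycle {s : ℕ} {v0 v1 v2 v3 : AA s} (h01 : blue v0 v1) (h12 : blue v1 v2)
    (h23 : blue v2 v3) (h30 : blue v3 v0) (h02 : v0 ≠ v2) (h13 : v1 ≠ v3) : False := by
  -- key computation
  have key : ∀ {a c : Fin s → ZMod 3} {i j k l : Fin s},
      a + Pi.single i 1 = c + Pi.single j 1 → a + Pi.single l 1 = c + Pi.single k 1 →
      a ≠ c → i ≠ l → False := by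
    intro a c i j k l h1 h2 hac hil
    have hij : i ≠ j := by
      rintro rfl
      exact hac (add_right_cancel h1)
    have h3 : (Pi.single i 1 : Fin s → ZMod 3) + Pi.single k 1
        = Pi.single j 1 + Pi.single l 1 := by
      have e1 : (Pi.single i 1 : Fin s → ZMod 3) = c + Pi.single j 1 - a := by
        rw [← h1]; abel
      have e2 : (Pi.single l 1 : Fin s → ZMod 3) = c + Pi.single k 1 - a := by
        rw [← h2]; abel
      rw [e1, e2]; abel
    have h4 := congrFun h3 i
    simp only [Pi.add_apply, Pi.single_eq_same, Pi.single_eq_of_ne hij, Pi.single_eq_of_ne hil]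
      at h4
    by_cases hik : i = k
    · subst hik
      rw [Pi.single_eq_same] at h4
      exact absurd h4 (by decide)
    · rw [Pi.single_eq_of_ne hik] at h4
      exact absurd h4 (by decide)
  obtain ⟨i, h01 | h01⟩ := h01 <;> obtain ⟨j, h12 | h12⟩ := h12 <;>
    obtain ⟨k, h23 | h23⟩ := h23 <;> obtain ⟨l, h30 | h30⟩ := h30 <;>
    try (first
      | (exact absurd (h01.1.symm.trans h30.2.1) (by decide))
      | (exact absurd (h01.2.1.symm.trans h12.1) (by decide))
      | (exact absurd (h12.2.1.symm.trans h23.1) (by decide))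
      | (exact absurd (h23.2.1.symm.trans h30.1) (by decide)))
  · -- v0 false, v1 true, v2 false, v3 true
    refine key (a := v0.1) (c := v2.1) (i := i) (j := j) (k := k) (l := l) ?_ ?_ ?_ ?_
    · rw [← h01.2.2, ← h12.2.2]
    · rw [← h23.2.2, ← h30.2.2]
    · intro h
      exact h02 (Prod.ext h (h01.1.trans h12.2.1.symm))
    · rintro rfl
      apply h13
      refine Prod.ext ?_ (h01.2.1.trans h23.2.1.symm)
      rw [h01.2.2, ← h30.2.2]
  · -- v0 true, v1 false, v2 true, v3 false
    refine key (a := v1.1) (c := v3.1) (i := i) (j := l) (k := k) (l := j) ?_ ?_ ?_ ?_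
    · rw [← h01.2.2, ← h30.2.2]
    · rw [← h12.2.2, ← h23.2.2]
    · intro h
      exact h13 (Prod.ext h (h01.2.1.trans h23.2.1.symm))
    · rintro rfl
      apply h02
      refine Prod.ext ?_ (h01.1.trans h12.2.1.symm)
      rw [h01.2.2, ← h12.2.2]

lemma card_AA (s : ℕ) : Fintype.card (AA s) = 2 * 3 ^ s := by
  simp [AA, Fintype.card_prod, ZMod.card, mul_comm]

lemma host_regular (s b : ℕ) (hb : b + s = 2 * 3 ^ s) (v : AA s ⊕ Fin b) :
    ((host s b).neighborSet v).ncard = 2 * 3 ^ s := by
  rcases v with x | y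
  · have h1 : (host s b).neighborSet (Sum.inl x)
        = Set.range (fun i => (Sum.inl (nb x i) : AA s ⊕ Fin b)) ∪ Set.range Sum.inr := by
      ext w
      rcases w with w | w
      · simp only [mem_neighborSet, Set.mem_union, Set.mem_range, Sum.inl.injEq]
        show blue x w ↔ _
        rw [blue_iff_nb]
        simp
      · simp only [mem_neighborSet, Set.mem_union, Set.mem_range]
        show True ↔ _
        simp
    rw [h1, Set.ncard_union_eq]
    · rw [Set.ncard_eq_toFinset_card', Set.ncard_eq_toFinset_card']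
      simp only [Set.toFinset_range]
      rw [Finset.card_image_of_injective, Finset.card_image_of_injective]
      · simp; omega
      · exact Sum.inr_injective
      · intro i j h
        exact nb_inj x (Sum.inl_injective h)
    · rw [Set.disjoint_left]
      rintro w ⟨i, rfl⟩ ⟨j, hj⟩
      simp at hj
  · have h1 : (host s b).neighborSet (Sum.inr y) = Set.range (Sum.inl : AA s → AA s ⊕ Fin b) := by
      ext w
      rcases w with w | w
      · simp only [mem_neighborSet, Set.mem_range]
        show True ↔ _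
        simp
      · simp only [mem_neighborSet, Set.mem_range]
        show False ↔ _
        simp
    rw [h1, Set.ncard_eq_toFinset_card', Set.toFinset_range,
      Finset.card_image_of_injective _ Sum.inl_injective, Finset.card_univ, card_AA]

open Classical in
/-- the colouring: edges inside `A` get colour `1`, all others colour `0` -/
noncomputable def col (s b r : ℕ) (hr : 2 ≤ r) (e : Sym2 (AA s ⊕ Fin b)) : Fin r :=
  if ∃ x y : AA s, e = s(Sum.inl x, Sum.inl y) then ⟨1, by omega⟩ else ⟨0, by omega⟩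

open Classical in
/-- Every monochromatic 4-cycle has two vertices in each class. -/
lemma balanced (s b r : ℕ) (hr : 2 ≤ r) (K : (host s b).Subgraph)
    (hK : Nonempty (cycleGraph 4 ≃g K.coe))
    (hc : ∃ k : Fin r, ∀ e ∈ K.edgeSet, col s b r hr e = k) :
    (Finset.univ.filter (fun x : AA s => Sum.inl x ∈ K.verts)).card = 2 ∧
    (Finset.univ.filter (fun y : Fin b => Sum.inr y ∈ K.verts)).card = 2 := by
  obtain ⟨φ⟩ := hK
  obtain ⟨k, hk⟩ := hc
  set w : Fin 4 → (AA s ⊕ Fin b) := fun i => (φ i).1 with hw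
  have winj : Function.Injective w := by
    intro i j h
    exact φ.injective (Subtype.ext h)
  have hverts : K.verts = Set.range w := by
    ext v
    constructor
    · intro hv
      exact ⟨φ.symm ⟨v, hv⟩, by simp [hw]⟩
    · rintro ⟨i, rfl⟩
      exact (φ i).2
  have hadj : ∀ i j : Fin 4, (cycleGraph 4).Adj i j → K.Adj (w i) (w j) := by
    intro i j h
    have := (φ.map_adj_iff (v := i) (w := j)).2 h
    exact this
  have a01 := hadj 0 1 (by decide)
  have a12 := hadj 1 2 (by decide)
  have a23 := hadj 2 3 (by decide)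
  have a30 := hadj 3 0 (by decide)
  have c01 := hk s(w 0, w 1) (by simpa using a01)
  have c12 := hk s(w 1, w 2) (by simpa using a12)
  have c23 := hk s(w 2, w 3) (by simpa using a23)
  have c30 := hk s(w 3, w 0) (by simpa using a30)
  have g01 := K.adj_sub a01
  have g12 := K.adj_sub a12
  have g23 := K.adj_sub a23
  have g30 := K.adj_sub a30
  have n02 : w 0 ≠ w 2 := fun h => absurd (winj h) (by decide)
  have n13 : w 1 ≠ w 3 := fun h => absurd (winj h) (by decide)
  have hcol1 : ∀ x y : AA s, col s b r hr s(Sum.inl x, Sum.inl y) = ⟨1, by omega⟩ := by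
    intro x y
    unfold col
    rw [if_pos ⟨x, y, rfl⟩]
  have hcol0 : ∀ (x : AA s ⊕ Fin b) (y : Fin b), col s b r hr s(x, Sum.inr y) = ⟨0, by omega⟩ := by
    intro x y
    unfold col
    rw [if_neg]
    rintro ⟨x', y', h⟩
    rw [Sym2.eq_iff] at h
    rcases h with ⟨_, h⟩ | ⟨_, h⟩ <;> simp at h
  have hcol0' : ∀ (x : AA s ⊕ Fin b) (y : Fin b), col s b r hr s(Sum.inr y, x) = ⟨0, by omega⟩ := by
    intro x y
    rw [Sym2.eq_swap]; exact hcol0 x y
  have h10 : (⟨1, by omega⟩ : Fin r) ≠ ⟨0, by omega⟩ := by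
    intro h
    simp at h
  have hrange : Set.range w = {w 0, w 1, w 2, w 3} := by
    ext v
    constructor
    · rintro ⟨i, rfl⟩
      fin_cases i <;> simp
    · rintro (rfl | rfl | rfl | rfl)
      · exact ⟨0, rfl⟩
      · exact ⟨1, rfl⟩
      · exact ⟨2, rfl⟩
      · exact ⟨3, rfl⟩
  rw [hrange] at hverts
  clear_value w
  generalize w 0 = w0 at *
  generalize w 1 = w1 at *
  generalize w 2 = w2 at *
  generalize w 3 = w3 at *
  rw [hverts]
  rcases w0 with x0 | y0 <;> rcases w1 with x1 | y1 <;> rcases w2 with x2 | y2 <;>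
    rcases w3 with x3 | y3 <;>
    first
    | (exact (no_blue_cycle g01 g12 g23 g30 (fun h => n02 (by rw [h]))
        (fun h => n13 (by rw [h]))).elim)
    | (exact False.elim g01)
    | (exact False.elim g12)
    | (exact False.elim g23)
    | (exact False.elim g30)
    | (exfalso; simp only [hcol0, hcol0', hcol1] at c01 c12 c23 c30
       first
       | exact h10 (c01.trans c12.symm)
       | exact h10 (c12.trans c01.symm)
       | exact h10 (c01.trans c23.symm)
       | exact h10 (c01.trans c30.symm)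
       | exact h10 (c23.trans c30.symm)
       | exact h10 (c30.trans c23.symm)
       | exact h10 (c30.trans c01.symm)
       | exact h10 (c23.trans c12.symm)
       | exact h10 (c12.trans c23.symm))
    | skip
  · have n02' : x0 ≠ x2 := fun h => n02 (by rw [h])
    have n13' : y1 ≠ y3 := fun h => n13 (by rw [h])
    exact ⟨Finset.card_eq_two.2 ⟨x0, x2, n02', by ext x; simp⟩,
      Finset.card_eq_two.2 ⟨y1, y3, n13', by ext x; simp⟩⟩
  · have n02' : y0 ≠ y2 := fun h => n02 (by rw [h])
    have n13' : x1 ≠ x3 := fun h => n13 (by rw [h])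
    exact ⟨Finset.card_eq_two.2 ⟨x1, x3, n13', by ext x; simp⟩,
      Finset.card_eq_two.2 ⟨y0, y2, n02', by ext x; simp⟩⟩

lemma cycle_bipartite : (cycleGraph 4).IsBipartite := by
  refine ⟨⟨fun i => if i = 0 ∨ i = 2 then 0 else 1, ?_⟩⟩
  intro a b
  revert a b
  decide

open Classical in
/-- **Disproof.** The 4-cycle is bipartite, and for every number `r ≥ 2` of colours and every real
`c ≤ 1/2` no constant `C` has the property that every `r`-edge-coloured `d`-regular graph on `n`
vertices with `d ≥ cn` has a monochromatic `C₄`-packing leaving at most `C` vertices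
uncovered. -/
theorem result : (cycleGraph 4).IsBipartite ∧
    ∀ r : ℕ, 2 ≤ r → ∀ c : ℝ, c ≤ 1 / 2 → ¬ HasConstant (cycleGraph 4) r c := by
  refine ⟨cycle_bipartite, ?_⟩
  rintro r hr c hc ⟨C, hC⟩
  obtain ⟨s, hs⟩ : ∃ s, s = C + 1 := ⟨_, rfl⟩
  have hlt : s < 3 ^ s := Nat.lt_pow_self (by norm_num)
  obtain ⟨b, hb⟩ : ∃ b, b + s = 2 * 3 ^ s := ⟨2 * 3 ^ s - s, by omega⟩
  have hdeg : c * (Fintype.card (AA s ⊕ Fin b) : ℝ) ≤ ((2 * 3 ^ s : ℕ) : ℝ) := by
    rw [Fintype.card_sum, card_AA, Fintype.card_fin]
    have h1 : ((2 * 3 ^ s + b : ℕ) : ℝ) ≤ 2 * ((2 * 3 ^ s : ℕ) : ℝ) := by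
      have : 2 * 3 ^ s + b ≤ 2 * (2 * 3 ^ s) := by omega
      exact_mod_cast this
    have h0 : (0 : ℝ) ≤ ((2 * 3 ^ s + b : ℕ) : ℝ) := Nat.cast_nonneg _
    calc c * ((2 * 3 ^ s + b : ℕ) : ℝ) ≤ 1 / 2 * ((2 * 3 ^ s + b : ℕ) : ℝ) :=
          mul_le_mul_of_nonneg_right hc h0
      _ ≤ 1 / 2 * (2 * ((2 * 3 ^ s : ℕ) : ℝ)) := by linarith
      _ = ((2 * 3 ^ s : ℕ) : ℝ) := by ring
  obtain ⟨P, ⟨hP1, hP2, hP3⟩, hP4⟩ := hC (AA s ⊕ Fin b) (host s b) (2 * 3 ^ s)
    (host_regular s b hb) hdeg (col s b r hr)
  have hbal : ∀ K ∈ P, _ := fun K hK => balanced s b r hr K (hP1 K hK) (hP2 K hK)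
  -- counting in the smaller class
  have hB : 2 * P.card ≤ b := by
    have h1 : (P.biUnion (fun K => Finset.univ.filter
        (fun y : Fin b => (Sum.inr y : AA s ⊕ Fin b) ∈ K.verts))).card = 2 * P.card := by
      rw [Finset.card_biUnion, Finset.sum_congr rfl (fun K hK => (hbal K hK).2)]
      · simp [mul_comm]
      · intro K hK L hL hne
        refine Finset.disjoint_left.2 ?_
        intro y hy1 hy2
        rw [Finset.mem_filter] at hy1 hy2
        exact Set.disjoint_left.1 (hP3 K hK L hL hne) hy1.2 hy2.2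
    have h2 := Finset.card_le_univ (P.biUnion (fun K => Finset.univ.filter
        (fun y : Fin b => (Sum.inr y : AA s ⊕ Fin b) ∈ K.verts)))
    rw [h1, Fintype.card_fin] at h2
    exact h2
  -- counting in the larger class
  set U : Finset (AA s) := P.biUnion (fun K => Finset.univ.filter
        (fun x : AA s => (Sum.inl x : AA s ⊕ Fin b) ∈ K.verts)) with hU
  have hUcard : U.card = 2 * P.card := by
    rw [hU, Finset.card_biUnion, Finset.sum_congr rfl (fun K hK => (hbal K hK).1)]
    · simp [mul_comm]
    · intro K hK L hL hne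
      refine Finset.disjoint_left.2 ?_
      intro y hy1 hy2
      rw [Finset.mem_filter] at hy1 hy2
      exact Set.disjoint_left.1 (hP3 K hK L hL hne) hy1.2 hy2.2
  have hsub : (Sum.inl '' ((Uᶜ : Finset (AA s)) : Set (AA s)) : Set (AA s ⊕ Fin b))
      ⊆ (covered P)ᶜ := by
    rintro _ ⟨x, hx, rfl⟩ hcov
    have hx' : x ∉ U := by simpa using hx
    apply hx'
    unfold covered at hcov
    rw [Set.mem_iUnion₂] at hcov
    obtain ⟨K, hK, hxK⟩ := hcov
    rw [hU, Finset.mem_biUnion]
    exact ⟨K, hK, by rw [Finset.mem_filter]; exact ⟨Finset.mem_univ _, hxK⟩⟩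
  have hle := Set.ncard_le_ncard hsub (Set.toFinite _)
  rw [Set.ncard_image_of_injective _ Sum.inl_injective, Set.ncard_coe_finset,
    Finset.card_compl, card_AA, hUcard] at hle
  omega

end Pool.Agent.Results.MP_b9e70b_co.UnbalancedHost
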